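import Pool.Agent.H.MP_360872_lc.A

set_option autoImplicit false
open Cardinal Set Function Filter Topology TopologicalSpace

namespace Pool.Agent.H.MP_ea20df_gt
open Pool.Agent.H.MP_360872_lc

universe u
variable {X : Type u} [TopologicalSpace X]

lemma core (F : O → X → ℝ) (hF : ∀ a, Continuous (F a)) :
    ∃ r : O → ℝ, (∀ a, r a ∈ Ioo (0 : ℝ) 1) ∧ ∀ a b, b < a →
      {x | F a x < r a} ⊆ {x | F b x < r b} → closure {x | F a x < r a} ⊆ {x | F b x < r b} := by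
  obtain ⟨r, hr⟩ := rec_choice (α := O) (β := ℝ) (fun a prev t => t ∈ Ioo (0 : ℝ) 1 ∧
      ∀ b : Iio a, t ≠ sSup {s | s ≤ 1 ∧ {x | F a x < s} ⊆ {x | F b x < prev b}}) fun a prev => by
    by_contra h
    push Not at h
    have : Ioo (0 : ℝ) 1 ⊆ range fun b : Iio a =>
        sSup {s | s ≤ 1 ∧ {x | F a x < s} ⊆ {x | F b x < prev b}} :=
      fun t ht => (h t ht).imp fun b e => e.symm
    have h2 := (mk_le_mk_of_subset this).trans_lt (mk_range_le.trans_lt (hIio a))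
    rw [mk_Ioo_real zero_lt_one] at h2
    exact lt_irrefl _ h2
  refine ⟨r, fun a => (hr a).1, fun a b hb h => ?_⟩
  have h1 : r a < sSup {s | s ≤ 1 ∧ {x | F a x < s} ⊆ {x | F b x < r b}} :=
    lt_of_le_of_ne (le_csSup ⟨1, fun _ h => h.1⟩ ⟨(hr a).1.2.le, h⟩) ((hr a).2 ⟨b, hb⟩)
  obtain ⟨t, ht, h2⟩ := exists_lt_of_lt_csSup (by exact ⟨_, (hr a).1.2.le, h⟩) h1
  refine (closure_minimal (t := {x | F a x ≤ r a}) (fun x (hx : F a x < r a) => le_of_lt hx)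
    (isClosed_le (hF a) continuous_const)).trans fun x hx => ht.2 (lt_of_le_of_lt hx h2)

def PC (Y : Type u) [TopologicalSpace Y] : Prop :=
  ∀ f : Y → ℝ, Continuous f → ∃ M : ℝ, ∀ y, |f y| ≤ M

def CC (S : Set (Set X)) : Prop :=
  ∀ B : ℕ → Set X, (∀ n, B n ∈ S) → (∀ n, B (n + 1) ⊆ B n) → (⋂ n, B n).Nonempty

lemma feeble [CompletelyRegularSpace X] {N : Set X} (hN : PC (closure N)) (B : ℕ → Set X)
    (h1 : ∀ n, IsOpen (B n)) (h2 : ∀ n, (B n).Nonempty) (h3 : Antitone B) (h4 : B 0 ⊆ N) :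
    ∃ x, ∀ n, x ∈ closure (B n) := by
  by_contra h
  push Not at h
  choose x hx using h2
  choose f f1 f2 f3 using fun n => CompletelyRegularSpace.completely_regular (x n) (B n)ᶜ
    (h1 n).isClosed_compl fun h => h (hx n)
  let g : ℕ → X → ℝ := fun n y => n * (1 - (f n y : ℝ))
  have hl : LocallyFinite fun n => support (g n) := fun y => by
    obtain ⟨n, hn⟩ := h y
    refine ⟨(closure (B n))ᶜ, isClosed_closure.isOpen_compl.mem_nhds hn,
      (finite_lt_nat n).subset ?_⟩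
    rintro m ⟨z, a, b⟩
    by_contra hm
    refine b (subset_closure (h3 (not_lt.1 hm) ?_))
    by_contra hz
    exact a (by simp [g, f3 m hz])
  have hc : Continuous fun y => ∑ᶠ n, g n y :=
    continuous_finsum (fun n => by have := f1 n; fun_prop) hl
  obtain ⟨M, hM⟩ := hN _ (hc.comp continuous_subtype_val)
  obtain ⟨n, hn⟩ := exists_nat_gt M
  have a1 := hM ⟨x n, subset_closure (h4 (h3 n.zero_le (hx n)))⟩
  have a2 : g n (x n) ≤ ∑ᶠ m, g m (x n) := single_le_finsum n (hl.point_finite (x n))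
    fun m => mul_nonneg m.cast_nonneg (sub_nonneg.2 (f m (x n)).2.2)
  have a3 : g n (x n) = n := by simp [g, f2 n]
  have a4 := le_abs_self (∑ᶠ m, g m (x n))
  simp only [comp_apply] at a1
  linarith

lemma fam [CompletelyRegularSpace X] {ι : Type u} (hι : #ι ≤ 𝔠) (F : ι → X → ℝ)
    (hF : ∀ i, Continuous (F i)) (h0 : ∀ i, ∃ x, F i x ≤ 0)
    (h1 : ∀ i, ∃ N : Set X, PC (closure N) ∧ {x | F i x < 1} ⊆ N) :
    ∃ r : ι → ℝ, (∀ i, r i ∈ Ioo (0 : ℝ) 1) ∧ CC (range fun i => {x | F i x < r i}) := by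
  obtain ⟨e⟩ : Nonempty (ι ↪ O) := by
    rw [← lift_mk_le', hO]
    simpa using hι
  obtain ⟨r, r1, r2⟩ := core (extend e F 0) fun a => by
    by_cases h : ∃ i, e i = a
    · obtain ⟨i, rfl⟩ := h
      rw [e.injective.extend_apply]
      exact hF i
    · rw [extend_apply' _ _ _ h]
      exact continuous_const
  refine ⟨r ∘ e, fun i => r1 _, fun B hB hd => ?_⟩
  choose a ha using hB
  have hA : Antitone B := antitone_nat_of_succ_le hd
  have hn : ∀ n, (B n).Nonempty := fun n => (h0 (a n)).imp fun x hx => by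
    rw [← ha n]
    exact hx.trans_lt (r1 _).1
  by_cases h : ∃ n, ∀ m, n ≤ m → B m = B n
  · obtain ⟨n, h⟩ := h
    obtain ⟨x, hx⟩ := hn n
    refine ⟨x, mem_iInter.2 fun m => ?_⟩
    rcases le_total n m with c | c
    · rwa [h m c]
    · exact hA c hx
  push Not at h
  obtain ⟨N, n1, n2⟩ := h1 (a 0)
  obtain ⟨x, hx⟩ := feeble n1 B (fun n => ha n ▸ isOpen_lt (hF _) continuous_const) hn hA
    (by rw [← ha 0]; exact fun x hx => n2 (lt_trans hx (r1 _).2))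
  refine ⟨x, mem_iInter.2 fun n => ?_⟩
  obtain ⟨_, ⟨m, hm, rfl⟩, hmin⟩ := (wellFounded_lt (α := O)).has_min
    ((fun m => e (a m)) '' Ici n) ⟨_, n, le_refl n, rfl⟩
  obtain ⟨k, hk, hne⟩ := h m
  have c1 : e (a m) < e (a k) := lt_of_le_of_ne (not_lt.1 (hmin _ ⟨k, le_trans hm hk, rfl⟩))
    fun c => hne (by rw [← ha k, ← ha m, e.injective c])
  have c2 := r2 _ _ c1
  simp only [e.injective.extend_apply] at c2
  have c3 := ha k
  have c4 := ha m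
  simp only [comp_apply] at c3 c4
  rw [c3, c4] at c2
  exact hA hm (c2 (hA hk) (hx k))

def LP (X : Type u) [TopologicalSpace X] : Prop :=
  ∀ x : X, ∃ N : Set X, IsOpen N ∧ x ∈ N ∧ PC (closure N)

lemma bump [CompletelyRegularSpace X] {x : X} {W : Set X} (hW : IsOpen W) (hx : x ∈ W) :
    ∃ f : X → ℝ, Continuous f ∧ {y | f y < 0} ∈ 𝓝 x ∧ {y | f y < 1} ⊆ W := by
  obtain ⟨f, f1, f2, f3⟩ := CompletelyRegularSpace.completely_regular x Wᶜ
    hW.isClosed_compl fun h => h hx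
  have hc : Continuous fun y => 2 * (f y : ℝ) - 1 := by fun_prop
  refine ⟨_, hc, (isOpen_lt hc continuous_const).mem_nhds (by simp [f2]), fun y hy => ?_⟩
  by_contra h
  have := f3 h
  simp only [mem_ofPred_eq, this] at hy
  norm_num at hy

theorem telg [CompletelyRegularSpace X] (hX : LP X) {U : Set (Set X)}
    (hU : IsTopologicalBasis U) (hc : #U ≤ 𝔠) :
    ∃ S : Set (Set X), IsTopologicalBasis S ∧ CC S := by
  let ι := {p : U × U // ∃ f : X → ℝ, Continuous f ∧ p.1.1.Nonempty ∧ p.1.1 ⊆ {y | f y < 0} ∧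
    {y | f y < 1} ⊆ p.2.1 ∧ ∃ N : Set X, PC (closure N) ∧ p.2.1 ⊆ N}
  have h1 : #ι ≤ 𝔠 := (mk_subtype_le _).trans (by
    rw [mk_prod, lift_id]
    exact (mul_le_mul' hc hc).trans continuum_mul_self.le)
  choose F a b c d e using fun i : ι => i.2
  obtain ⟨r, r1, r2⟩ := fam h1 F a (fun i => (b i).imp fun x hx => le_of_lt (c i hx))
    fun i => (e i).imp fun N h => ⟨h.1, (d i).trans h.2⟩
  refine ⟨_, isTopologicalBasis_of_isOpen_of_nhds ?_ fun x W hx hW => ?_, r2⟩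
  · rintro _ ⟨i, rfl⟩
    exact isOpen_lt (a i) continuous_const
  obtain ⟨N, n1, n2, n3⟩ := hX x
  obtain ⟨V, v1, v2, v3⟩ := hU.exists_subset_of_mem_open (mem_inter hx n2) (hW.inter n1)
  obtain ⟨f, f1, f2, f3⟩ := bump (hU.isOpen v1) v2
  obtain ⟨T, t1, t2, t3⟩ := hU.mem_nhds_iff.1 f2
  let i : ι := ⟨(⟨T, t1⟩, ⟨V, v1⟩), f, f1, ⟨x, t2⟩, t3, f3, N, n3, v3.trans inter_subset_right⟩
  exact ⟨_, ⟨i, rfl⟩, lt_trans (c i t2) (r1 i).1,
    fun y hy => (v3 (d i (lt_trans hy (r1 i).2))).1⟩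

def PiB (P : Set (Set X)) (W : Set X) : Prop :=
  (∀ B ∈ P, IsOpen B ∧ B.Nonempty ∧ B ⊆ W) ∧
    ∀ V : Set X, IsOpen V → V.Nonempty → V ⊆ W → ∃ B ∈ P, B ⊆ V

lemma ox1 [CompletelyRegularSpace X] (hX : LP X) {P : Set (Set X)} {W : Set X}
    (hP : PiB P W) (hc : #P ≤ 𝔠) : ∃ S : Set (Set X), PiB S W ∧ CC S := by
  choose F a b c d using fun i : P => show ∃ f : X → ℝ, Continuous f ∧ (∃ x, f x ≤ 0) ∧
      {y | f y < 1} ⊆ i.1 ∧ ∃ N : Set X, PC (closure N) ∧ {x | f x < 1} ⊆ N from by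
    obtain ⟨h1, ⟨x, hx⟩, -⟩ := hP.1 _ i.2
    obtain ⟨N, n1, n2, n3⟩ := hX x
    obtain ⟨f, f1, f2, f3⟩ := bump (h1.inter n1) ⟨hx, n2⟩
    exact ⟨f, f1, ⟨x, le_of_lt (mem_of_mem_nhds f2 : x ∈ {y | f y < 0})⟩, f3.trans inter_subset_left, N, n3,
      f3.trans inter_subset_right⟩
  obtain ⟨r, r1, r2⟩ := fam hc F a b d
  have hs : ∀ i, {x | F i x < r i} ⊆ i.1 := fun i y hy => c i (lt_trans hy (r1 i).2)
  refine ⟨_, ⟨?_, fun V v1 v2 v3 => ?_⟩, r2⟩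
  · rintro _ ⟨i, rfl⟩
    exact ⟨isOpen_lt (a i) continuous_const, (b i).imp fun x hx => lt_of_le_of_lt hx (r1 i).1,
      (hs i).trans (hP.1 _ i.2).2.2⟩
  · obtain ⟨B, b1, b2⟩ := hP.2 V v1 v2 v3
    exact ⟨_, ⟨⟨B, b1⟩, rfl⟩, (hs ⟨B, b1⟩).trans b2⟩

theorem oxt [CompletelyRegularSpace X] (hX : LP X)
    (h : ∀ V : Set X, IsOpen V → V.Nonempty → ∃ W : Set X, IsOpen W ∧ W.Nonempty ∧ W ⊆ V ∧
      ∃ P : Set (Set X), PiB P W ∧ #P ≤ 𝔠) : ∃ S : Set (Set X), PiB S univ ∧ CC S := by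
  let G : Set (Set X) := {W | IsOpen W ∧ W.Nonempty ∧ ∃ S : Set (Set X), PiB S W ∧ CC S}
  obtain ⟨M, hM⟩ := zorn_subset {M : Set (Set X) | M ⊆ G ∧ M.PairwiseDisjoint id}
    fun c hc h1 => ⟨⋃₀ c, ⟨sUnion_subset fun M hM => (hc hM).1,
      (pairwiseDisjoint_sUnion h1.directedOn).2 fun M hM => (hc hM).2⟩,
      fun _ => subset_sUnion_of_mem⟩
  choose S s1 s2 using fun W : M => (hM.prop.1 W.2).2.2
  refine ⟨⋃ W, S W, ⟨fun B hB => ?_, fun V v1 v2 _ => ?_⟩, fun B hB hd => ?_⟩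
  · obtain ⟨W, hW⟩ := mem_iUnion.1 hB
    exact ⟨((s1 W).1 B hW).1, ((s1 W).1 B hW).2.1, subset_univ _⟩
  · obtain ⟨W, w1, w2, w3, P, p1, p2⟩ := h V v1 v2
    have : ∃ T : M, (W ∩ T.1).Nonempty := by
      by_contra hn
      push Not at hn
      have h1 : W ∈ M := hM.mem_of_prop_insert ⟨insert_subset ⟨w1, w2, ox1 hX p1 p2⟩ hM.prop.1,
        hM.prop.2.insert fun T hT _ => disjoint_iff_inter_eq_empty.2 (hn ⟨T, hT⟩)⟩
      have := hn ⟨W, h1⟩
      rw [inter_self] at this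
      exact w2.ne_empty this
    obtain ⟨T, hT⟩ := this
    obtain ⟨B, b1, b2⟩ := (s1 T).2 _ (w1.inter (hM.prop.1 T.2).1) hT inter_subset_right
    exact ⟨B, mem_iUnion.2 ⟨T, b1⟩, b2.trans (inter_subset_left.trans w3)⟩
  · choose W hW using fun n => mem_iUnion.1 (hB n)
    refine s2 (W 0) B (fun n => ?_) hd
    obtain ⟨x, hx⟩ := ((s1 _).1 _ (hW n)).2.1
    have : W n = W 0 := Subtype.ext (hM.prop.2.elim_set (W n).2 (W 0).2 x
      (((s1 _).1 _ (hW n)).2.2 hx)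
      (((s1 _).1 _ (hW 0)).2.2 (antitone_nat_of_succ_le hd n.zero_le hx)))
    exact this ▸ hW n

end Pool.Agent.H.MP_ea20df_gt
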